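import Pool.Agent.H754R3.PR.Traj

/-!
# Complete bounded trajectories of the planar Navier-Stokes equations with the same pressure
-/

set_option autoImplicit false

namespace Pool.Agent.Results.MP_ed9623_an.PressureTrajectories

open Set Pool.Agent.H754R3.PR

/-- `(u1, u2)` with pressure `p` (functions of `(t, x)`) is a complete bounded trajectory in `Ω`
with time-independent force `(g1, g2)`, viscosity `ν` and no slip on the frontier.
`sl F t = F (t, ·)`, `Dt` is the time derivative, `d1`, `d2` are the space derivatives. -/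
structure IsTrajectory (Ω : Set (ℝ × ℝ)) (ν : ℝ) (g1 g2 : ℝ × ℝ → ℝ)
    (u1 u2 p : ℝ × (ℝ × ℝ) → ℝ) : Prop where
  smooth1 : ContDiff ℝ 3 u1
  smooth2 : ContDiff ℝ 3 u2
  press : ∀ t, DifferentiableOn ℝ (sl p t) Ω
  mom1 : ∀ t, ∀ x ∈ Ω, Dt u1 (t, x) + u1 (t, x) * d1 (sl u1 t) x + u2 (t, x) * d2 (sl u1 t) x
    + d1 (sl p t) x = ν * (d1 (d1 (sl u1 t)) x + d2 (d2 (sl u1 t)) x) + g1 x
  mom2 : ∀ t, ∀ x ∈ Ω, Dt u2 (t, x) + u1 (t, x) * d1 (sl u2 t) x + u2 (t, x) * d2 (sl u2 t) x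
    + d2 (sl p t) x = ν * (d1 (d1 (sl u2 t)) x + d2 (d2 (sl u2 t)) x) + g2 x
  div : ∀ t, ∀ x ∈ Ω, d1 (sl u1 t) x + d2 (sl u2 t) x = 0
  noslip : ∀ t, ∀ x ∈ frontier Ω, u1 (t, x) = 0 ∧ u2 (t, x) = 0
  bounded : ∃ B : ℝ, ∀ t, ∀ x ∈ Ω, |u1 (t, x)| ≤ B ∧ |u2 (t, x)| ≤ B ∧
    |d1 (sl u1 t) x| ≤ B ∧ |d2 (sl u1 t) x| ≤ B ∧ |d1 (sl u2 t) x| ≤ B ∧ |d2 (sl u2 t) x| ≤ B

/-- vorticity of `(u1, u2)` at time `t` -/
noncomputable def vort (u1 u2 : ℝ × (ℝ × ℝ) → ℝ) (t : ℝ) (x : ℝ × ℝ) : ℝ :=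
  d1 (sl u2 t) x - d2 (sl u1 t) x

/-- Two complete bounded trajectories with the same force and, at all times, the same pressure up
to a constant: the structure of the wall vorticities, and equality if one of them is steady. -/
theorem result (Ω : Set (ℝ × ℝ)) (hΩ : IsOpen Ω) (hb : Bornology.IsBounded Ω)
    (γ : ℝ → ℝ × ℝ) (hγ : ContDiff ℝ 2 γ) (hγ0 : ∀ s, deriv γ s ≠ 0)
    (hγr : range γ = frontier Ω) (ν : ℝ) (hν : 0 < ν)
    (g1 g2 : ℝ × ℝ → ℝ) (u1 u2 p v1 v2 q : ℝ × (ℝ × ℝ) → ℝ)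
    (hu : IsTrajectory Ω ν g1 g2 u1 u2 p) (hv : IsTrajectory Ω ν g1 g2 v1 v2 q)
    (hpq : ∃ k : ℝ → ℝ, ∀ t, ∀ x ∈ Ω, p (t, x) = q (t, x) + k t) :
    (∃ c : ℝ → ℝ, Continuous c ∧
      (∀ t, ∀ x ∈ frontier Ω, vort u1 u2 t x - vort v1 v2 t x = c t) ∧
      (∃ B' : ℝ, ∀ t0 t1 : ℝ, |∫ s in t0..t1, c s| ≤ B') ∧
      (∀ t s, c t ≠ 0 → curv γ s ≠ 0 →
        vort u1 u2 t (γ s) = c t / 2 ∧ vort v1 v2 t (γ s) = - c t / 2) ∧
      ((∀ t, c t = 0) → ∀ t, ∀ x ∈ Ω, u1 (t, x) = v1 (t, x) ∧ u2 (t, x) = v2 (t, x))) ∧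
    ((∀ t, ∀ x ∈ Ω, v1 (t, x) = v1 (0, x) ∧ v2 (t, x) = v2 (0, x)) →
      ∀ t, ∀ x ∈ Ω, u1 (t, x) = v1 (t, x) ∧ u2 (t, x) = v2 (t, x)) := by
  obtain ⟨k, hk⟩ := hpq
  have hp : ∀ t, ∀ x ∈ Ω, d1 (sl p t) x = d1 (sl q t) x ∧ d2 (sl p t) x = d2 (sl q t) x := by
    intro t x hx
    have h1 : sl p t =ᶠ[nhds x] fun y => sl q t y + k t := by
      filter_upwards [hΩ.mem_nhds hx] with y hy using hk t y hy
    have h2 : fderiv ℝ (sl p t) x = fderiv ℝ (sl q t) x := by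
      rw [h1.fderiv_eq, fderiv_add_const]
    exact ⟨by rw [d1, d1, h2], by rw [d2, d2, h2]⟩
  have S3 : ∀ {F : ℝ × (ℝ × ℝ) → ℝ}, ContDiff ℝ 3 F → ∀ t, ContDiff ℝ 3 (sl F t) := fun hF t =>
    sl_contDiff (n := 3) hF t
  have D : ∀ {F : ℝ × ℝ → ℝ}, ContDiff ℝ 3 F → Differentiable ℝ F := fun h =>
    h.differentiable (by norm_num)
  have D1 : ∀ {F : ℝ × ℝ → ℝ}, ContDiff ℝ 3 F → Differentiable ℝ (d1 F) := fun h =>
    (d1_contDiff (m := 2) (n := 3) h (by norm_num)).differentiable (by norm_num)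
  have D2 : ∀ {F : ℝ × ℝ → ℝ}, ContDiff ℝ 3 F → Differentiable ℝ (d2 F) := fun h =>
    (d2_contDiff (m := 2) (n := 3) h (by norm_num)).differentiable (by norm_num)
  have DT : ∀ {F : ℝ × (ℝ × ℝ) → ℝ}, ContDiff ℝ 3 F → Differentiable ℝ F := fun h =>
    h.differentiable (by norm_num)
  -- derivatives of the difference and of the mean
  have s1 : ∀ {F G : ℝ × (ℝ × ℝ) → ℝ}, ContDiff ℝ 3 F → ContDiff ℝ 3 G → ∀ t,
      d1 (sl (fun z => F z - G z) t) = fun y => d1 (sl F t) y - d1 (sl G t) y :=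
    fun hF hG t => funext fun y => d1_sub (D (S3 hF t)) (D (S3 hG t)) y
  have s2 : ∀ {F G : ℝ × (ℝ × ℝ) → ℝ}, ContDiff ℝ 3 F → ContDiff ℝ 3 G → ∀ t,
      d2 (sl (fun z => F z - G z) t) = fun y => d2 (sl F t) y - d2 (sl G t) y :=
    fun hF hG t => funext fun y => d2_sub (D (S3 hF t)) (D (S3 hG t)) y
  have st : ∀ {F G : ℝ × (ℝ × ℝ) → ℝ}, ContDiff ℝ 3 F → ContDiff ℝ 3 G → ∀ z,
      Dt (fun z => F z - G z) z = Dt F z - Dt G z := fun hF hG z => by
    have h := ((DT hF z).hasFDerivAt.fun_sub (DT hG z).hasFDerivAt).fderiv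
    rw [Dt, h]; rfl
  have m1 : ∀ {F G : ℝ × (ℝ × ℝ) → ℝ}, ContDiff ℝ 3 F → ContDiff ℝ 3 G → ∀ t y,
      d1 (sl (fun z => 1 / 2 * (F z + G z)) t) y = 1 / 2 * (d1 (sl F t) y + d1 (sl G t) y) :=
    @fun F G hF hG t y => by
    have h1 := d1_cmul (f := fun y => sl F t y + sl G t y) ((D (S3 hF t)).add (D (S3 hG t)))
      (1 / 2) y
    rw [d1_add (D (S3 hF t)) (D (S3 hG t))] at h1
    exact h1
  have m2 : ∀ {F G : ℝ × (ℝ × ℝ) → ℝ}, ContDiff ℝ 3 F → ContDiff ℝ 3 G → ∀ t y,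
      d2 (sl (fun z => 1 / 2 * (F z + G z)) t) y = 1 / 2 * (d2 (sl F t) y + d2 (sl G t) y) :=
    @fun F G hF hG t y => by
    have h1 := d2_cmul (f := fun y => sl F t y + sl G t y) ((D (S3 hF t)).add (D (S3 hG t)))
      (1 / 2) y
    rw [d2_add (D (S3 hF t)) (D (S3 hG t))] at h1
    exact h1
  have hu1 := hu.smooth1
  have hu2 := hu.smooth2
  have hv1 := hv.smooth1
  have hv2 := hv.smooth2
  obtain ⟨Bu, hBu⟩ := hu.bounded
  obtain ⟨Bv, hBv⟩ := hv.bounded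
  have bsub : ∀ {x y : ℝ}, |x| ≤ Bu → |y| ≤ Bv → |x - y| ≤ Bu + Bv := fun hx hy =>
    (abs_sub _ _).trans (add_le_add hx hy)
  have bmean : ∀ {x y : ℝ}, |x| ≤ Bu → |y| ≤ Bv → |1 / 2 * (x + y)| ≤ Bu + Bv := by
    intro x y hx hy
    rw [abs_mul, abs_of_pos (by norm_num : (0 : ℝ) < 1 / 2)]
    have h1 := abs_add_le x y
    have h2 := abs_nonneg (x + y)
    linarith
  obtain ⟨c, hc1, hc2, hc3, hc4, hc5⟩ := core_time hΩ hb hγ hγ0 hγr hν (B := Bu + Bv)
    (w1 := fun z => u1 z - v1 z) (w2 := fun z => u2 z - v2 z)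
    (a1 := fun z => 1 / 2 * (u1 z + v1 z)) (a2 := fun z => 1 / 2 * (u2 z + v2 z))
    (hu1.sub hv1) (hu2.sub hv2) (contDiff_const.mul (hu1.add hv1))
    (contDiff_const.mul (hu2.add hv2))
    (by
      intro t x hx
      rw [s1 hu1 hv1, s2 hu2 hv2]
      have e1 := hu.div t x hx
      have e2 := hv.div t x hx
      linarith)
    (by
      intro t x hx
      rw [m1 hu1 hv1, m2 hu2 hv2]
      have e1 := hu.div t x hx
      have e2 := hv.div t x hx
      linarith)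
    (by
      intro t x hx
      have e1 := hu.noslip t x hx
      have e2 := hv.noslip t x hx
      simp [e1.1, e1.2, e2.1, e2.2])
    (by
      intro t x hx
      have e1 := hu.noslip t x hx
      have e2 := hv.noslip t x hx
      simp [e1.1, e1.2, e2.1, e2.2])
    (by
      intro t x hx
      have e1 := hu.mom1 t x hx
      have e2 := hv.mom1 t x hx
      rw [(hp t x hx).1] at e1
      rw [m1 hu1 hv1, m2 hu1 hv1, s1 hu1 hv1, s2 hu1 hv1, st hu1 hv1,
        d1_sub (D1 (S3 hu1 t)) (D1 (S3 hv1 t)), d2_sub (D2 (S3 hu1 t)) (D2 (S3 hv1 t))]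
      linarith)
    (by
      intro t x hx
      have e1 := hu.mom2 t x hx
      have e2 := hv.mom2 t x hx
      rw [(hp t x hx).2] at e1
      rw [m1 hu2 hv2, m2 hu2 hv2, s1 hu2 hv2, s2 hu2 hv2, st hu2 hv2,
        d1_sub (D1 (S3 hu2 t)) (D1 (S3 hv2 t)), d2_sub (D2 (S3 hu2 t)) (D2 (S3 hv2 t))]
      linarith)
    (by
      intro t x hx
      obtain ⟨p1, p2, p3, p4, p5, p6⟩ := hBu t x hx
      obtain ⟨r1, r2, r3, r4, r5, r6⟩ := hBv t x hx
      rw [s1 hu1 hv1, s2 hu1 hv1]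
      exact ⟨bsub p1 r1, bsub p3 r3, bsub p4 r4⟩)
    (by
      intro t x hx
      obtain ⟨p1, p2, p3, p4, p5, p6⟩ := hBu t x hx
      obtain ⟨r1, r2, r3, r4, r5, r6⟩ := hBv t x hx
      rw [s1 hu2 hv2, s2 hu2 hv2]
      exact ⟨bsub p2 r2, bsub p5 r5, bsub p6 r6⟩)
    (by
      intro t x hx
      obtain ⟨p1, p2, p3, p4, p5, p6⟩ := hBu t x hx
      obtain ⟨r1, r2, r3, r4, r5, r6⟩ := hBv t x hx
      rw [m1 hu1 hv1, m2 hu1 hv1]
      exact ⟨bmean p1 r1, bmean p3 r3, bmean p4 r4⟩)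
    (by
      intro t x hx
      obtain ⟨p1, p2, p3, p4, p5, p6⟩ := hBu t x hx
      obtain ⟨r1, r2, r3, r4, r5, r6⟩ := hBv t x hx
      rw [m1 hu2 hv2, m2 hu2 hv2]
      exact ⟨bmean p2 r2, bmean p5 r5, bmean p6 r6⟩)
  have hmem : ∀ s, γ s ∈ frontier Ω := fun s => by rw [← hγr]; exact mem_range_self s
  -- the wall relation
  have hwall : ∀ t, ∀ x ∈ frontier Ω, vort u1 u2 t x - vort v1 v2 t x = c t := by
    intro t x hx
    have h1 := hc2 t x hx
    rw [s1 hu2 hv2, s2 hu1 hv1] at h1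
    simp only [vort]
    linarith
  have hcurv : ∀ t s, c t ≠ 0 → curv γ s ≠ 0 → vort u1 u2 t (γ s) + vort v1 v2 t (γ s) = 0 := by
    intro t s h1 h2
    have h3 := hc4 t s
    rw [m1 hu2 hv2, m2 hu1 hv1] at h3
    have h4 := (mul_eq_zero.1 ((mul_eq_zero.1 h3).resolve_right h2)).resolve_left h1
    simp only [vort]
    linarith
  have heq : (∀ t, c t = 0) → ∀ t, ∀ x ∈ Ω, u1 (t, x) = v1 (t, x) ∧ u2 (t, x) = v2 (t, x) := by
    intro h t x hx
    have h1 := hc5 h t x hx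
    exact ⟨by linarith [h1.1], by linarith [h1.2]⟩
  refine ⟨⟨c, hc1, hwall, hc3, ?_, heq⟩, ?_⟩
  · intro t s h1 h2
    have h3 := hcurv t s h1 h2
    have h4 := hwall t _ (hmem s)
    constructor <;> linarith
  · intro hst
    refine heq ?_
    obtain ⟨s, hs⟩ := exists_curved (K := frontier Ω)
      (hb.isCompact_closure.of_isClosed_subset isClosed_frontier frontier_subset_closure)
      hγ hγ0 hγr
    have hs' : curv γ s ≠ 0 := hs
    -- the wall vorticity of `v` does not depend on time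
    have hvt : ∀ t, vort v1 v2 t (γ s) = vort v1 v2 0 (γ s) := by
      intro t
      have h1 := zero_on_frontier (Ω := Ω)
        (F := fun x => vort v1 v2 t x - vort v1 v2 0 x) (by
          have c1 := (d1_contDiff (m := 2) (n := 3) (S3 hv2 t) (by norm_num)).continuous
          have c2 := (d2_contDiff (m := 2) (n := 3) (S3 hv1 t) (by norm_num)).continuous
          have c3 := (d1_contDiff (m := 2) (n := 3) (S3 hv2 0) (by norm_num)).continuous
          have c4 := (d2_contDiff (m := 2) (n := 3) (S3 hv1 0) (by norm_num)).continuous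
          exact (c1.sub c2).sub (c3.sub c4)) (by
          intro x hx
          have e1 : sl v1 t =ᶠ[nhds x] sl v1 0 := by
            filter_upwards [hΩ.mem_nhds hx] with y hy using (hst t y hy).1
          have e2 : sl v2 t =ᶠ[nhds x] sl v2 0 := by
            filter_upwards [hΩ.mem_nhds hx] with y hy using (hst t y hy).2
          simp only [vort, d1, d2]
          rw [e1.fderiv_eq, e2.fderiv_eq]
          ring) (γ s) (hmem s)
      linarith
    -- so `c` takes at most two values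
    obtain ⟨K, hK⟩ : ∃ K : ℝ, K = -2 * vort v1 v2 0 (γ s) := ⟨_, rfl⟩
    have htwo : ∀ t, c t = 0 ∨ c t = K := by
      intro t
      by_cases h : c t = 0
      · exact Or.inl h
      · right
        have h1 := hcurv t s h hs'
        have h2 := hwall t _ (hmem s)
        have h3 := hvt t
        rw [hK]; linarith
    by_contra hne
    push Not at hne
    obtain ⟨t1, ht1⟩ := hne
    have hK1 : c t1 = K := (htwo t1).resolve_left ht1
    have hK0 : K ≠ 0 := by rw [← hK1]; exact ht1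
    have hall : ∀ t, c t = K := by
      intro t
      rcases htwo t with h | h
      · exfalso
        have h1 := intermediate_value_uIcc (a := t) (b := t1) hc1.continuousOn
        have h2 : K / 2 ∈ uIcc (c t) (c t1) := by
          rw [h, hK1, mem_uIcc]
          rcases le_total 0 K with h3 | h3
          · left; constructor <;> linarith
          · right; constructor <;> linarith
        obtain ⟨t2, -, ht2⟩ := h1 h2
        rcases htwo t2 with h4 | h4
        · rw [h4] at ht2; apply hK0; linarith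
        · rw [h4] at ht2; apply hK0; linarith
      · exact h
    obtain ⟨B', hB'⟩ := hc3
    have h1 := hB' 0 ((B' + 1) / |K|)
    have h2 : (∫ s in (0 : ℝ)..((B' + 1) / |K|), c s) = ((B' + 1) / |K|) * K := by
      simp only [hall]
      rw [intervalIntegral.integral_const]
      simp
    have hKa : 0 < |K| := abs_pos.2 hK0
    have hB0 : 0 ≤ B' := (abs_nonneg _).trans (hB' 0 0)
    rw [h2, abs_mul, abs_of_nonneg (by positivity), div_mul_cancel₀ _ hKa.ne'] at h1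
    linarith

end Pool.Agent.Results.MP_ed9623_an.PressureTrajectories
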